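import Pool.Agent.helper60.EPT.Spec

/-!
# Row CAL: the rules for polynomial time functions
-/

set_option autoImplicit false

namespace Pool.Agent.EPT

open D

/-- pointwise equal functions -/
theorem CAL_congr (f g : D → D) (h : FP f) (he : ∀ x, f x = g x) : FP g := by
  have : f = g := funext he
  rw [← this]; exact h

theorem CAL (hPBC : PBC_stmt) (hRSZ : RSZ_stmt) (hRBA : RBA_stmt) (hRCG : RCG_stmt) (hRCO : RCO_stmt) (hRWL : RWL_stmt) (hRIT : RIT_stmt) (hRFO : RFO_stmt) : CAL_stmt := by
  have _h := hRSZ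
  have hS : PB size size := hPBC.2.1 size
  have hid : FP fun x => x := (hRBA.1 size hS).1
  have hconst : ∀ a : D, FP fun _ => a := fun a => (hRBA.1 size hS).2 a
  have hcomp : ∀ g f : D → D, FP g → FP f → FP fun x => g (f x) := fun g f hg hf => hRCG.2.1 size g f hg hf
  have hcons : ∀ f g : D → D, FP f → FP g → FP fun x => D.cons (f x) (g x) := fun f g hf hg => (hRCO size hS f g hf hg).1
  have hcond : ∀ c f g : D → D, FP c → FP f → FP g → FP fun x => if c x = nil then g x else f x :=
    fun c f g hc hf hg => (hRCO size hS f g hf hg).2 c hc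
  have hfst : ∀ f : D → D, FP f → FP fun x => (f x).fst := fun f hf => hcomp fst f hRBA.2.1 hf
  have hsnd : ∀ f : D → D, FP f → FP fun x => (f x).snd := fun f hf => hcomp snd f hRBA.2.2.1 hf
  have heq : ∀ f g : D → D, FP f → FP g → FP fun x => tv (f x = g x) := by
    intro f g hf hg
    have h := hcomp (fun x => tv (x.fst = x.snd)) (fun x => D.cons (f x) (g x)) hRBA.2.2.2 (hcons f g hf hg)
    exact CAL_congr _ _ h (fun x => tv_congr _ _ Iff.rfl)
  have hnot : ∀ f : D → D, FP f → FP fun x => tv (f x = nil) := by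
    intro f hf
    exact CAL_congr _ _ (heq f (fun _ => nil) hf (hconst nil)) (fun x => rfl)
  have htv : ∀ f : D → D, FP f → FP fun x => tv (f x ≠ nil) := by
    intro f hf
    refine CAL_congr _ _ (hcond f (fun _ => one) (fun _ => nil) hf (hconst one) (hconst nil)) (fun x => ?_)
    unfold tv
    by_cases h : f x = nil
    · simp [h]
    · simp [h]
  refine ⟨hid, hconst, hcomp, hcons, hcond, hfst, hsnd, heq, hnot, ?_, ?_, ?_, ?_, ?_, ?_, ?_⟩
  · intro f g hf hg
    refine CAL_congr _ _ (hcond f (fun x => tv (g x ≠ nil)) (fun _ => nil) hf (htv g hg) (hconst nil)) (fun x => ?_)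
    unfold tv
    by_cases h : f x = nil
    · simp [h]
    · simp [h]
  · intro f g hf hg
    refine CAL_congr _ _ (hcond f (fun _ => one) (fun x => tv (g x ≠ nil)) hf (hconst one) (htv g hg)) (fun x => ?_)
    unfold tv
    by_cases h : f x = nil
    · simp [h]
    · simp [h]
  · intro f g hf hg
    refine CAL_congr _ _ (hcond f (fun x => tv (g x ≠ nil)) (fun x => tv (g x = nil)) hf (htv g hg) (hnot g hg)) (fun x => ?_)
    unfold tv
    by_cases h : f x = nil
    · simp [h]
    · simp [h]
  · rintro c f a r hc hf ha ⟨C, hC⟩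
    exact hRWL size hS c f a r hc hf ha ⟨fun x => (x.size + C) ^ C, ⟨C, fun x => le_refl _⟩, hC⟩
  · rintro f n a hf hn ha ⟨C, hC⟩
    exact hRIT size hS f n a hf hn ha ⟨fun x => (x.size + C) ^ C, ⟨C, fun x => le_refl _⟩, hC⟩
  · rintro f l e a hf hl he ha ⟨C, hC⟩
    exact hRFO size hS f l e a hf hl he ha ⟨fun x => (x.size + C) ^ C, ⟨C, fun x => le_refl _⟩, hC⟩
  · intro f hf
    obtain ⟨c, hc⟩ := hRCG.2.2.2 size f hf
    exact ⟨c, hc⟩

end Pool.Agent.EPT
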